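import Pool.Agent.Helper62.DSH.StC

/-!
# Project DSH, module BRC: components of a form and of its exterior derivative in a frame
-/

set_option autoImplicit false

open Set Filter Topology MeasureTheory
open Helper62.LH Helper62.DSH
open scoped ContDiff ENNReal

noncomputable section

namespace Pool.Agent.Helper27.DSH

/-- evaluation of a smooth alternating form at smooth vector fields is smooth (general spaces) -/
lemma brc_smooth0 {W V : Type*} [NormedAddCommGroup W] [NormedSpace ℝ W] [NormedAddCommGroup V]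
    [NormedSpace ℝ V] {j : ℕ} {φ : W → V [⋀^Fin j]→L[ℝ] ℝ} (hφ : ContDiff ℝ ∞ φ)
    {v : Fin j → W → V} (hv : ∀ k, ContDiff ℝ ∞ (v k)) :
    ContDiff ℝ ∞ (fun x => φ x (fun k => v k x)) := by
  let A : (V [⋀^Fin j]→L[ℝ] ℝ) →L[ℝ] ContinuousMultilinearMap ℝ (fun _ : Fin j => V) ℝ :=
    ContinuousAlternatingMap.toContinuousMultilinearMapCLM ℝ
  let B : ContinuousMultilinearMap ℝ (fun _ : Fin j => V)
    ((V [⋀^Fin j]→L[ℝ] ℝ) →L[ℝ] ℝ) := A.flipMultilinear
  have h0 : ContDiff ℝ ∞ (fun w : Fin j → V => B w) :=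
    ContinuousMultilinearMap.contDiff (𝕜 := ℝ) (E := fun _ : Fin j => V)
      (F := (V [⋀^Fin j]→L[ℝ] ℝ) →L[ℝ] ℝ) B
  have h1 : ContDiff ℝ ∞ (fun x => B (fun k => v k x)) := h0.comp (contDiff_pi.2 hv)
  exact h1.clm_apply hφ

/-- evaluation of a smooth alternating form at smooth vector fields is smooth -/
lemma brc_smooth {n j : ℕ} {φ : E n → E n [⋀^Fin j]→L[ℝ] ℝ} (hφ : ContDiff ℝ ∞ φ)
    {v : Fin j → E n → E n} (hv : ∀ k, ContDiff ℝ ∞ (v k)) :
    ContDiff ℝ ∞ (fun x => φ x (fun k => v k x)) := brc_smooth0 hφ hv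

/-- the covariant derivative of the components -/
lemma brc_cv {n j : ℕ} {g : E n → Bl n} {Γ : E n → Bm n} {F : Fin n → E n → E n}
    {G : E n → Fin n → Fin n → Fin n → ℝ} (hF : Frm g Γ F G)
    {φ : E n → E n [⋀^Fin j]→L[ℝ] ℝ} (hφ : ContDiff ℝ ∞ φ) (x : E n) (a : Fin n)
    (I : Fin j → Fin n) :
    cv F G (cp F φ) x a I = (fderiv ℝ φ x (F a x)) (fun k => F (I k) x) -
      ((φ x).fderivCompContinuousLinearMap (ContinuousLinearMap.id ℝ (E n)) (Γ x (F a x)))
        (fun k => F (I k) x) := by
  have hs : ∀ K : Fin j → Fin n, ContDiff ℝ ∞ (fun y => φ y (fun k => F (K k) y)) :=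
    fun K => brc_smooth hφ (fun k => hF.smF (K k))
  have h1 : fderiv ℝ (cp F φ) x (F a x) I =
      fderiv ℝ (fun y => φ y (fun k => F (I k) y)) x (F a x) := by
    have hd : ∀ K : Fin j → Fin n,
        DifferentiableAt ℝ (fun y => cp F φ y K) x :=
      fun K => (hs K).differentiable (by simp) x
    have h2 := fderiv_pi (𝕜 := ℝ) (φ := fun (K : Fin j → Fin n) (y : E n) => cp F φ y K)
      (x := x) hd
    have h3 : fderiv ℝ (cp F φ) x = ContinuousLinearMap.pi
        (fun K : Fin j → Fin n => fderiv ℝ (fun y => cp F φ y K) x) := h2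
    rw [h3]
    rfl
  have h4 : fderiv ℝ (fun y => φ y (fun k => F (I k) y)) x (F a x) =
      (fderiv ℝ φ x (F a x)) (fun k => F (I k) x) +
        ∑ k, φ x (Function.update (fun k => F (I k) x) k (fderiv ℝ (F (I k)) x (F a x))) :=
    fderiv_continuousAlternatingMap_apply_apply (f := φ) (g := fun k => F (I k))
      (hφ.differentiable (by simp) x) (fun k => (hF.smF (I k)).differentiable (by simp) x) (F a x)
  have hsum : ∀ (k : Fin j) (w : Fin n → E n),
      φ x (Function.update (fun k => F (I k) x) k (∑ l, w l)) =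
      ∑ l, φ x (Function.update (fun k => F (I k) x) k (w l)) := fun k w =>
    (φ x).toAlternatingMap.map_update_sum Finset.univ k w (fun k => F (I k) x)
  have hsmul : ∀ (k : Fin j) (c : ℝ) (w : E n),
      φ x (Function.update (fun k => F (I k) x) k (c • w)) =
      c * φ x (Function.update (fun k => F (I k) x) k w) := fun k c w =>
    (φ x).toAlternatingMap.map_update_smul (fun k => F (I k) x) k c w
  have hadd : ∀ (k : Fin j) (w w' : E n),
      φ x (Function.update (fun k => F (I k) x) k (w + w')) =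
      φ x (Function.update (fun k => F (I k) x) k w) +
      φ x (Function.update (fun k => F (I k) x) k w') := fun k w w' =>
    (φ x).toAlternatingMap.map_update_add (fun k => F (I k) x) k w w'
  have h5 : rho (G x a) (cp F φ x) I = ∑ k, φ x (Function.update (fun k => F (I k) x) k
      (∑ l, G x a (I k) l • F l x)) := by
    unfold rho
    refine Finset.sum_congr rfl (fun k _ => ?_)
    rw [hsum]
    refine Finset.sum_congr rfl (fun l _ => ?_)
    rw [hsmul]
    congr 1
    unfold cp
    congr 1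
    funext i
    by_cases hi : i = k
    · subst hi
      simp
    · simp [Function.update_of_ne hi]
  have h6 : ((φ x).fderivCompContinuousLinearMap (ContinuousLinearMap.id ℝ (E n))
      (Γ x (F a x))) (fun k => F (I k) x) =
      ∑ k, φ x (Function.update (fun k => F (I k) x) k (Γ x (F a x) (F (I k) x))) := by
    rw [ContinuousAlternatingMap.fderivCompContinuousLinearMap_apply]
    refine Finset.sum_congr rfl (fun k _ => ?_)
    congr 1
    funext i
    by_cases hi : i = k
    · subst hi
      simp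
    · simp [Function.update_of_ne hi]
  have h7 : cv F G (cp F φ) x a I =
      fderiv ℝ (cp F φ) x (F a x) I - rho (G x a) (cp F φ x) I := rfl
  rw [h7, h1, h4, h5, h6, add_sub_assoc, ← Finset.sum_sub_distrib, sub_eq_add_neg,
    ← Finset.sum_neg_distrib]
  congr 1
  refine Finset.sum_congr rfl (fun k _ => ?_)
  rw [← hF.cn x a (I k), hadd]
  ring

/-- BRC -/
theorem hBrc (hChr : StChr) : TBrc := by
  intro n j g Γ F G hg hΓ hF φ hφ
  have hd : ContDiff ℝ ∞ (fun x => fderiv ℝ φ x) := hφ.fderiv_right (by simp)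
  refine ⟨?_, ?_, ?_, ?_⟩
  · exact contDiff_pi.2 (fun I => brc_smooth hφ (fun k => hF.smF (I k)))
  · intro x I σ
    have h : φ x ((fun k => F (I k) x) ∘ σ) = Equiv.Perm.sign σ • φ x (fun k => F (I k) x) :=
      (φ x).toAlternatingMap.map_perm (fun k => F (I k) x) σ
    have h2 : cp F φ x (I ∘ σ) = φ x ((fun k => F (I k) x) ∘ σ) := rfl
    have h3 : cp F φ x I = φ x (fun k => F (I k) x) := rfl
    rw [h2, h3, h, Units.smul_def, zsmul_eq_mul]
  · exact (ContinuousAlternatingMap.alternatizeUncurryFinCLM ℝ (E n) ℝ).contDiff.comp hd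
  · intro x
    funext J
    have hz : ContinuousAlternatingMap.alternatizeUncurryFin
        ((φ x).fderivCompContinuousLinearMap (ContinuousLinearMap.id ℝ (E n)) ∘L (Γ x)) = 0 :=
      ContinuousAlternatingMap.alternatizeUncurryFin_fderivCompContinuousLinearMap_eq_zero
        (φ x) (ContinuousLinearMap.id ℝ (E n)) ((hChr n g Γ hg hΓ).2.1 x)
    have hau : ∀ A : E n →L[ℝ] E n [⋀^Fin j]→L[ℝ] ℝ,
        ContinuousAlternatingMap.alternatizeUncurryFin A (fun k => F (J k) x) =
        ∑ c : Fin (j + 1), (-1 : ℝ) ^ (c : ℕ) *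
          (A (F (J c) x)) (fun i => F (J (c.succAbove i)) x) := by
      intro A
      rw [ContinuousAlternatingMap.alternatizeUncurryFin_apply]
      refine Finset.sum_congr rfl (fun c _ => ?_)
      rw [zsmul_eq_mul]
      push_cast
      rfl
    have h1 : dF F G (cp F φ) x J = ∑ c : Fin (j + 1), (-1) ^ (c : ℕ) *
        cv F G (cp F φ) x (J c) (fun i => J (c.succAbove i)) := rfl
    have h2 : cp F (fun y => extDeriv φ y) x J =
        ContinuousAlternatingMap.alternatizeUncurryFin (fderiv ℝ φ x)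
            (fun k => F (J k) x) := rfl
    have h5 : ∑ c : Fin (j + 1), (-1 : ℝ) ^ (c : ℕ) *
        ((φ x).fderivCompContinuousLinearMap (ContinuousLinearMap.id ℝ (E n))
          (Γ x (F (J c) x))) (fun i => F (J (c.succAbove i)) x) = 0 := by
      have h6 := hau ((φ x).fderivCompContinuousLinearMap (ContinuousLinearMap.id ℝ (E n)) ∘L (Γ x))
      rw [hz] at h6
      exact h6.symm
    rw [h1, h2, hau]
    have h4 : ∀ c : Fin (j + 1), (-1 : ℝ) ^ (c : ℕ) *
        cv F G (cp F φ) x (J c) (fun i => J (c.succAbove i)) =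
        (-1 : ℝ) ^ (c : ℕ) * (fderiv ℝ φ x (F (J c) x)) (fun i => F (J (c.succAbove i)) x) -
        (-1 : ℝ) ^ (c : ℕ) * ((φ x).fderivCompContinuousLinearMap
          (ContinuousLinearMap.id ℝ (E n))
          (Γ x (F (J c) x))) (fun i => F (J (c.succAbove i)) x) := by
      intro c
      rw [brc_cv hF hφ, mul_sub]
    rw [Finset.sum_congr rfl (fun c _ => h4 c), Finset.sum_sub_distrib, h5, sub_zero]

end Pool.Agent.Helper27.DSH
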